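import Pool.Agent.H758Z.InfMain

open Pool.Agent.H758Z.InfH

namespace Pool.Agent.Results.MP_2231f7_an.AUnique

/-- On every bounded open set `Ω` of the plane (in particular on every annular region) and for
every continuous `u₀` from the closure of `Ω` to the circle (in particular every Lipschitz one),
two infinity-harmonic maps with data `u₀` coincide. -/
theorem result (Ω : Set Plane) (hΩ : IsOpen Ω) (hb : Bornology.IsBounded Ω)
    (u₀ u v : C(closure Ω, Circ)) (hu : IsInfHarmonic Ω u₀ u) (hv : IsInfHarmonic Ω u₀ v) :
    u = v :=
  unique hΩ hb hu hv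

end Pool.Agent.Results.MP_2231f7_an.AUnique
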